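import Pool.Agent.Q152.QT.StmV

/-!
# Project QT of helper152, part 3: job QV1 (chaining for the even moments)
-/

set_option autoImplicit false

namespace Pool.Agent.Q208.QT

open Finset Pool.Agent.Q152.QT
open Pool.Agent.Q163.GC (W)

theorem W_add' (f : ℕ → ℝ) (x h k : ℕ) : W f x (h + k) = W f x h + W f (x + h) k := by
  unfold W
  rw [sum_range_add]
  congr 1
  refine sum_congr rfl fun j _ => ?_
  congr 1
  ring

theorem W_abs {f : ℕ → ℝ} (hf : ∀ n, |f n| ≤ 1) (x h : ℕ) : |W f x h| ≤ h := by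
  unfold W
  calc |∑ j ∈ range h, f (x + j + 1)| ≤ ∑ j ∈ range h, |f (x + j + 1)| := abs_sum_le_sum_abs _ _
    _ ≤ ∑ _j ∈ range h, (1 : ℝ) := sum_le_sum fun j _ => hf _
    _ = h := by simp

/-- the elementary inequality -/
theorem split_ineq (r : ℕ) : ∃ D : ℝ, 1 ≤ D ∧ ∀ a b : ℝ,
    (a + b) ^ (2 * r) ≤ D * a ^ (2 * r) + 3 / 2 * b ^ (2 * r) := by
  obtain ⟨l, hl, hl1⟩ : ∃ l : ℝ, 0 < l ∧ (1 + l) ^ (2 * r) ≤ 3 / 2 := by
    have hc : ContinuousAt (fun l : ℝ => (1 + l) ^ (2 * r)) 0 := by fun_prop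
    have h1 : ∀ᶠ l in nhds (0 : ℝ), (1 + l) ^ (2 * r) < 3 / 2 := by
      apply hc.eventually_lt_const
      norm_num
    obtain ⟨e, he, h⟩ := Metric.eventually_nhds_iff.mp h1
    refine ⟨e / 2, by positivity, (h ?_).le⟩
    rw [Real.dist_eq, sub_zero, abs_of_pos (by positivity)]
    linarith
  refine ⟨(1 + 1 / l) ^ (2 * r), one_le_pow₀ (by
    have : 0 < 1 / l := by positivity
    linarith), ?_⟩
  intro a b
  have ha : a ^ (2 * r) = |a| ^ (2 * r) := by
    rw [pow_mul, pow_mul, sq_abs]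
  have hb : b ^ (2 * r) = |b| ^ (2 * r) := by
    rw [pow_mul, pow_mul, sq_abs]
  have hab : (a + b) ^ (2 * r) = |a + b| ^ (2 * r) := by
    rw [pow_mul, pow_mul, sq_abs]
  rw [ha, hb, hab]
  have h0 : |a + b| ≤ |a| + |b| := abs_add_le a b
  have hA := abs_nonneg a
  have hB := abs_nonneg b
  rcases le_total |a| (l * |b|) with h | h
  · calc |a + b| ^ (2 * r) ≤ ((1 + l) * |b|) ^ (2 * r) :=
          pow_le_pow_left₀ (abs_nonneg _) (by linarith) _
      _ = (1 + l) ^ (2 * r) * |b| ^ (2 * r) := by rw [mul_pow]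
      _ ≤ 3 / 2 * |b| ^ (2 * r) := mul_le_mul_of_nonneg_right hl1 (by positivity)
      _ ≤ _ := by
          have : 0 ≤ (1 + 1 / l) ^ (2 * r) * |a| ^ (2 * r) := by positivity
          linarith
  · have h2 : |b| ≤ 1 / l * |a| := by
      rw [div_mul_eq_mul_div, one_mul, le_div_iff₀ hl]
      linarith
    calc |a + b| ^ (2 * r) ≤ ((1 + 1 / l) * |a|) ^ (2 * r) :=
          pow_le_pow_left₀ (abs_nonneg _) (by linarith) _
      _ = (1 + 1 / l) ^ (2 * r) * |a| ^ (2 * r) := by rw [mul_pow]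
      _ ≤ _ := by
          have : 0 ≤ 3 / 2 * |b| ^ (2 * r) := by positivity
          linarith

/-- JOB QV1 -/
theorem t_ChainR : S_ChainR := by
  intro r hr
  obtain ⟨D, hD, hDab⟩ := split_ineq r
  refine ⟨2 * D, by linarith, ?_⟩
  intro f N j0 K hf hK J hJ
  have hev : ∀ z : ℝ, 0 ≤ z ^ (2 * r) := fun z => by
    rw [pow_mul]
    positivity
  have h2r : (2 : ℝ) ≤ 2 ^ r := by
    calc (2 : ℝ) = 2 ^ 1 := (pow_one _).symm
      _ ≤ 2 ^ r := pow_le_pow_right₀ (by norm_num) hr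
  induction J, hJ using Nat.le_induction with
  | base =>
    intro _ L hL s _
    have h1 : ∀ x ∈ Ico N (2 * N), W f (x + s) L ^ (2 * r) ≤ (4 ^ r) ^ j0 := by
      intro x _
      have h2 := W_abs hf (x + s) L
      have h3 : (L : ℝ) ≤ 2 ^ j0 := by exact_mod_cast hL.le
      have h4 : W f (x + s) L ^ (2 * r) ≤ ((2 : ℝ) ^ j0) ^ (2 * r) := by
        have h5 : W f (x + s) L ^ (2 * r) = |W f (x + s) L| ^ (2 * r) := by
          rw [pow_mul, pow_mul, sq_abs]
        rw [h5]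
        exact pow_le_pow_left₀ (abs_nonneg _) (h2.trans h3) _
      refine h4.trans (le_of_eq ?_)
      rw [show (4 : ℝ) = 2 ^ 2 by norm_num, ← pow_mul, ← pow_mul, ← pow_mul]
      congr 1
      ring
    calc ∑ x ∈ Ico N (2 * N), W f (x + s) L ^ (2 * r) ≤
        ∑ _x ∈ Ico N (2 * N), ((4 : ℝ) ^ r) ^ j0 := sum_le_sum h1
      _ = (4 ^ r) ^ j0 * N := by
          rw [sum_const, Nat.card_Ico, nsmul_eq_mul, show 2 * N - N = N by omega]
          ring
      _ ≤ _ := by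
          rw [Nat.sub_self, pow_zero, mul_one]
          refine mul_le_mul_of_nonneg_right ?_ (Nat.cast_nonneg N)
          have : 0 ≤ 2 * D * K * (2 ^ j0) ^ r := by positivity
          linarith
  | succ J hJ ih =>
    intro hs L hL s hsL
    have ih' := ih (fun j h1 h2 => hs j h1 (by omega))
    have e1 : J + 1 - j0 = (J - j0) + 1 := by omega
    have e2 : ((2 : ℝ) ^ (J + 1)) ^ r = (2 ^ J) ^ r * 2 ^ r := by rw [pow_succ, mul_pow]
    have hX : 0 ≤ K * ((2 : ℝ) ^ J) ^ r := by positivity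
    have hZ : (0 : ℝ) ≤ (4 ^ r) ^ j0 * (3 / 2 : ℝ) ^ (J - j0) := by positivity
    set X : ℝ := K * ((2 : ℝ) ^ J) ^ r with hXdef
    set Z : ℝ := (4 ^ r) ^ j0 * (3 / 2 : ℝ) ^ (J - j0) with hZdef
    have e3 : 2 * D * K * (2 ^ J) ^ r + (4 ^ r) ^ j0 * (3 / 2 : ℝ) ^ (J - j0) = 2 * D * X + Z := by
      rw [hXdef, hZdef]
      ring
    have e4 : 2 * D * K * (2 ^ (J + 1)) ^ r + (4 ^ r) ^ j0 * (3 / 2 : ℝ) ^ (J + 1 - j0) =
        2 * D * X * 2 ^ r + 3 / 2 * Z := by
      rw [hXdef, hZdef, e1, e2, pow_succ (3 / 2 : ℝ)]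
      ring
    rw [e4]
    rw [e3] at ih'
    have hDX : 0 ≤ D * X := by positivity
    have hDX2 : 2 * D * X * 2 ≤ 2 * D * X * 2 ^ r :=
      mul_le_mul_of_nonneg_left h2r (by positivity)
    rcases Nat.lt_or_ge L (2 ^ J) with h | h
    · refine (ih' L h s hsL).trans ?_
      refine mul_le_mul_of_nonneg_right ?_ (Nat.cast_nonneg N)
      linarith
    · obtain ⟨L', rfl⟩ := Nat.exists_eq_add_of_le h
      have hL' : L' < 2 ^ J := by
        rw [pow_succ] at hL
        omega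
      have h1 := ih' L' hL' (s + 2 ^ J) (by omega)
      have h2 : ∑ x ∈ Ico N (2 * N), W f (x + s) (2 ^ J) ^ (2 * r) ≤ X * N := by
        refine le_trans ?_ (hs J hJ (Nat.lt_succ_self J))
        have h3 : ∑ x ∈ Ico N (2 * N), W f (x + s) (2 ^ J) ^ (2 * r) =
            ∑ y ∈ (Ico N (2 * N)).image (fun x => x + s), W f y (2 ^ J) ^ (2 * r) := by
          rw [sum_image]
          intro a _ b _ hab
          exact Nat.add_right_cancel hab
        rw [h3]
        refine sum_le_sum_of_subset_of_nonneg ?_ (fun _ _ _ => hev _)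
        intro y hy
        rw [mem_image] at hy
        obtain ⟨x, hx, rfl⟩ := hy
        rw [mem_Ico] at hx ⊢
        constructor <;> omega
      have h4 : ∀ x ∈ Ico N (2 * N), W f (x + s) (2 ^ J + L') ^ (2 * r) ≤
          D * W f (x + s) (2 ^ J) ^ (2 * r) + 3 / 2 * W f (x + (s + 2 ^ J)) L' ^ (2 * r) := by
        intro x _
        rw [W_add', ← add_assoc]
        exact hDab _ _
      have h5 := sum_le_sum h4
      rw [sum_add_distrib, ← mul_sum, ← mul_sum] at h5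
      have h6 : D * ∑ x ∈ Ico N (2 * N), W f (x + s) (2 ^ J) ^ (2 * r) ≤ D * (X * N) :=
        mul_le_mul_of_nonneg_left h2 (by linarith)
      have h7 : 3 / 2 * ∑ x ∈ Ico N (2 * N), W f (x + (s + 2 ^ J)) L' ^ (2 * r) ≤
          3 / 2 * ((2 * D * X + Z) * N) := mul_le_mul_of_nonneg_left h1 (by norm_num)
      calc ∑ x ∈ Ico N (2 * N), W f (x + s) (2 ^ J + L') ^ (2 * r)
          ≤ D * (X * N) + 3 / 2 * ((2 * D * X + Z) * N) := by linarith
        _ = (2 * D * X * 2 + 3 / 2 * Z) * N := by ring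
        _ ≤ (2 * D * X * 2 ^ r + 3 / 2 * Z) * N :=
            mul_le_mul_of_nonneg_right (by linarith) (Nat.cast_nonneg N)

end Pool.Agent.Q208.QT
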