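import Pool.Agent.Q152.QT.StmW

/-!
# Project QT of helper152, part 4: job QW2 (the exceptional set of the grid property)
-/

set_option autoImplicit false

namespace Pool.Agent.Q208.QT

open Finset Pool.Agent.Q152.QT
open Pool.Agent.Q163.GC (W Mf BB DD JJ Grid prs red cr count)

/-- the index pairs -/
def Tp (A j : ℕ) : Finset (ℕ × ℕ) := (range (A * j + 1)) ×ˢ (Icc 1 (2 * j))

theorem Tp_card {A j : ℕ} (hA : 13 ≤ A) (hj : 1 ≤ j) :
    ((Tp A j).card : ℝ) ≤ 4 * A * (j : ℝ) ^ 2 := by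
  have hA1 : (13 : ℝ) ≤ A := by exact_mod_cast hA
  have hjR : (1 : ℝ) ≤ j := by exact_mod_cast hj
  unfold Tp
  rw [card_product, card_range, Nat.card_Icc, Nat.add_sub_cancel]
  push_cast
  have h9 : (1 : ℝ) ≤ A * j := by nlinarith
  calc ((A : ℝ) * j + 1) * (2 * j) ≤ (2 * (A * j)) * (2 * j) :=
        mul_le_mul_of_nonneg_right (by linarith) (by positivity)
    _ = 4 * A * (j : ℝ) ^ 2 := by ring

/-- the first part of the estimate (as in `grid_ae`) -/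
theorem first {A : ℕ} (hA : 13 ≤ A) {C : ℝ} (hC : 1 ≤ C) {j h : ℕ} (hj1 : 1 ≤ j) (hh1 : 1 ≤ h)
    (hjbig : 800 * C * (A : ℝ) ^ 3 ≤ j) (hc : h * j ^ 12 ≤ j ^ A) {c : ℝ}
    (hcn : c ≤ C * (((j ^ A + h : ℕ) : ℝ)) ^ (1 / (A : ℝ)) *
      (((j ^ A + h : ℕ) : ℝ) * h * (1 + Real.log ((j ^ A + h : ℕ) : ℝ)) ^ 2)) :
    4 * (h : ℝ) ^ 2 * c * ((Tp A j).card * (j : ℝ) ^ 2) ≤ 2 * ((h : ℝ) * (j : ℝ) ^ A / j) ^ 2 := by
  have hA0 : (0 : ℝ) < A := by
    have : 0 < A := by omega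
    exact_mod_cast this
  have hjR : (1 : ℝ) ≤ j := by exact_mod_cast hj1
  have hjp : (0 : ℝ) < j := by linarith
  have hhR : (0 : ℝ) < h := by exact_mod_cast hh1
  have hhA : (h : ℝ) * (j : ℝ) ^ 12 ≤ (j : ℝ) ^ A := by exact_mod_cast hc
  have hhA1 : (h : ℝ) ≤ (j : ℝ) ^ A := by
    have : (1 : ℝ) ≤ (j : ℝ) ^ 12 := one_le_pow₀ hjR
    nlinarith
  set Y : ℕ := j ^ A + h with hY
  have hYR : (Y : ℝ) ≤ 2 * (j : ℝ) ^ A := by
    rw [hY]
    push_cast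
    linarith
  have hY1 : (1 : ℝ) ≤ Y := by
    have : 1 ≤ Y := by omega
    exact_mod_cast this
  have hy1 : (Y : ℝ) ^ (1 / (A : ℝ)) ≤ 2 * j := by
    calc (Y : ℝ) ^ (1 / (A : ℝ)) ≤ ((2 * (j : ℝ)) ^ (A : ℝ)) ^ (1 / (A : ℝ)) := by
          refine Real.rpow_le_rpow (by positivity) ?_ (by positivity)
          rw [Real.rpow_natCast, mul_pow]
          refine hYR.trans (mul_le_mul_of_nonneg_right ?_ (by positivity))
          calc (2 : ℝ) = 2 ^ 1 := (pow_one _).symm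
            _ ≤ 2 ^ A := pow_le_pow_right₀ (by norm_num) (by omega)
      _ = 2 * j := by
          rw [← Real.rpow_mul (by positivity), mul_one_div_cancel hA0.ne', Real.rpow_one]
  have hy2 : (1 + Real.log Y) ^ 2 ≤ 25 * (A : ℝ) ^ 2 * j := by
    have h2 : Real.log Y ≤ (Y : ℝ) ^ (1 / (2 * (A : ℝ))) / (1 / (2 * (A : ℝ))) :=
      Real.log_le_rpow_div (by positivity) (by positivity)
    have h3 : (Y : ℝ) ^ (1 / (2 * (A : ℝ))) ≤ Real.sqrt (2 * j) := by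
      have : (Y : ℝ) ^ (1 / (2 * (A : ℝ))) = Real.sqrt ((Y : ℝ) ^ (1 / (A : ℝ))) := by
        rw [Real.sqrt_eq_rpow, ← Real.rpow_mul (by positivity)]
        congr 1
        field_simp
      rw [this]
      exact Real.sqrt_le_sqrt hy1
    have h4 : Real.sqrt (2 * j) ≤ 2 * Real.sqrt j := by
      rw [Real.sqrt_mul (by norm_num)]
      refine mul_le_mul_of_nonneg_right ?_ (Real.sqrt_nonneg _)
      rw [Real.sqrt_le_left (by norm_num)]
      norm_num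
    have h5 : 1 ≤ Real.sqrt j := Real.one_le_sqrt.2 hjR
    have h6 : Real.log Y ≤ 4 * A * Real.sqrt j := by
      calc Real.log Y ≤ (Y : ℝ) ^ (1 / (2 * (A : ℝ))) / (1 / (2 * (A : ℝ))) := h2
        _ = 2 * A * (Y : ℝ) ^ (1 / (2 * (A : ℝ))) := by
            rw [div_div_eq_mul_div, div_one]
            ring
        _ ≤ 2 * A * (2 * Real.sqrt j) :=
            mul_le_mul_of_nonneg_left (h3.trans h4) (by positivity)
        _ = 4 * A * Real.sqrt j := by ring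
    have h7 : 0 ≤ 1 + Real.log Y := by
      have := Real.log_nonneg hY1
      linarith
    have hA1 : (13 : ℝ) ≤ A := by exact_mod_cast hA
    have h8 : 1 + Real.log Y ≤ 5 * A * Real.sqrt j := by nlinarith
    calc (1 + Real.log Y) ^ 2 ≤ (5 * A * Real.sqrt j) ^ 2 := pow_le_pow_left₀ h7 h8 2
      _ = 25 * (A : ℝ) ^ 2 * j := by
          rw [mul_pow, Real.sq_sqrt hjp.le]
          ring
  have hc1 : c ≤ 100 * C * (A : ℝ) ^ 2 * (j : ℝ) ^ 2 * ((j : ℝ) ^ A * h) := by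
    calc c ≤ C * (Y : ℝ) ^ (1 / (A : ℝ)) * (Y * h * (1 + Real.log Y) ^ 2) := hcn
      _ ≤ C * (2 * j) * ((2 * (j : ℝ) ^ A) * h * (25 * (A : ℝ) ^ 2 * j)) := by
          refine mul_le_mul (mul_le_mul_of_nonneg_left hy1 (by linarith)) ?_ (by positivity)
            (by positivity)
          exact mul_le_mul (mul_le_mul_of_nonneg_right hYR hhR.le) hy2 (by positivity)
            (by positivity)
      _ = 100 * C * (A : ℝ) ^ 2 * (j : ℝ) ^ 2 * ((j : ℝ) ^ A * h) := by ring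
  have hcard := Tp_card hA hj1
  calc 4 * (h : ℝ) ^ 2 * c * ((Tp A j).card * (j : ℝ) ^ 2)
      ≤ 4 * (h : ℝ) ^ 2 * (100 * C * (A : ℝ) ^ 2 * (j : ℝ) ^ 2 * ((j : ℝ) ^ A * h)) *
          ((4 * A * (j : ℝ) ^ 2) * (j : ℝ) ^ 2) :=
        mul_le_mul (mul_le_mul_of_nonneg_left hc1 (by positivity))
          (mul_le_mul_of_nonneg_right hcard (by positivity)) (by positivity) (by positivity)
    _ = 2 * (h : ℝ) ^ 2 * (j : ℝ) ^ A * (h * ((j : ℝ) ^ 5 * (j * (800 * C * (A : ℝ) ^ 3)))) := by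
        ring
    _ ≤ 2 * (h : ℝ) ^ 2 * (j : ℝ) ^ A * (h * ((j : ℝ) ^ 5 * (j * j))) := by
        refine mul_le_mul_of_nonneg_left ?_ (by positivity)
        refine mul_le_mul_of_nonneg_left ?_ hhR.le
        exact mul_le_mul_of_nonneg_left (mul_le_mul_of_nonneg_left hjbig hjp.le) (by positivity)
    _ ≤ 2 * (h : ℝ) ^ 2 * (j : ℝ) ^ A * ((j : ℝ) ^ A / (j : ℝ) ^ 2) := by
        refine mul_le_mul_of_nonneg_left ?_ (by positivity)
        rw [le_div_iff₀ (by positivity)]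
        refine le_trans ?_ hhA
        have : (j : ℝ) ^ 9 ≤ (j : ℝ) ^ 12 := pow_le_pow_right₀ hjR (by norm_num)
        calc (h : ℝ) * ((j : ℝ) ^ 5 * (j * j)) * (j : ℝ) ^ 2 = h * (j : ℝ) ^ 9 := by ring
          _ ≤ h * (j : ℝ) ^ 12 := mul_le_mul_of_nonneg_left this hhR.le
    _ = 2 * ((h : ℝ) * (j : ℝ) ^ A / j) ^ 2 := by
        field_simp

/-- the second part of the estimate -/
theorem second {A : ℕ} (hA : 13 ≤ A) {C : ℝ} (hC : 1 ≤ C) {j h : ℕ} (hj1 : 1 ≤ j) (hh1 : 1 ≤ h)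
    (hjbig : 800 * C * (A : ℝ) ^ 3 ≤ j) (hc : h * j ^ 12 ≤ j ^ A) {P : ℕ} (hP : (j ^ A) ^ 6 ≤ P) :
    4 * ((j : ℝ) ^ A * (h : ℝ) ^ 2) ^ 2 * ((j : ℝ) ^ A + h) ^ 4 * ((Tp A j).card * (j : ℝ) ^ 2) ≤
      2 * P * ((h : ℝ) * (j : ℝ) ^ A / j) ^ 2 := by
  have hA1 : (13 : ℝ) ≤ A := by exact_mod_cast hA
  have hjR : (1 : ℝ) ≤ j := by exact_mod_cast hj1
  have hjp : (0 : ℝ) < j := by linarith
  have hhR : (0 : ℝ) < h := by exact_mod_cast hh1
  have hhA : (h : ℝ) * (j : ℝ) ^ 12 ≤ (j : ℝ) ^ A := by exact_mod_cast hc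
  have hhA1 : (h : ℝ) ≤ (j : ℝ) ^ A := by
    have : (1 : ℝ) ≤ (j : ℝ) ^ 12 := one_le_pow₀ hjR
    nlinarith
  have hPR : ((j : ℝ) ^ A) ^ 6 ≤ P := by exact_mod_cast hP
  have hcard := Tp_card hA hj1
  set N : ℝ := (j : ℝ) ^ A with hN
  have hNp : 0 < N := by positivity
  have hbig : 128 * (A : ℝ) ≤ (j : ℝ) ^ 18 := by
    have h1 : 128 * (A : ℝ) ≤ 800 * C * (A : ℝ) ^ 3 := by
      have h2 : (A : ℝ) ≤ (A : ℝ) ^ 3 := by
        calc (A : ℝ) = (A : ℝ) ^ 1 := (pow_one _).symm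
          _ ≤ (A : ℝ) ^ 3 := pow_le_pow_right₀ (by linarith) (by norm_num)
      have h3 : (128 : ℝ) ≤ 800 * C := by linarith
      exact mul_le_mul h3 h2 (by linarith) (by linarith)
    have h4 : (j : ℝ) ≤ (j : ℝ) ^ 18 := by
      calc (j : ℝ) = (j : ℝ) ^ 1 := (pow_one _).symm
        _ ≤ (j : ℝ) ^ 18 := pow_le_pow_right₀ hjR (by norm_num)
    linarith
  have hkey : 128 * (A : ℝ) * (h : ℝ) ^ 2 * (j : ℝ) ^ 6 ≤ N ^ 2 := by
    calc 128 * (A : ℝ) * (h : ℝ) ^ 2 * (j : ℝ) ^ 6 = 128 * (A : ℝ) * ((h : ℝ) ^ 2 * (j : ℝ) ^ 6) := by ring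
      _ ≤ (j : ℝ) ^ 18 * ((h : ℝ) ^ 2 * (j : ℝ) ^ 6) := mul_le_mul_of_nonneg_right hbig (by positivity)
      _ = ((h : ℝ) * (j : ℝ) ^ 12) ^ 2 := by ring
      _ ≤ N ^ 2 := pow_le_pow_left₀ (by positivity) hhA 2
  calc 4 * (N * (h : ℝ) ^ 2) ^ 2 * (N + h) ^ 4 * ((Tp A j).card * (j : ℝ) ^ 2)
      ≤ 4 * (N * (h : ℝ) ^ 2) ^ 2 * (2 * N) ^ 4 * ((4 * A * (j : ℝ) ^ 2) * (j : ℝ) ^ 2) := by
        refine mul_le_mul ?_ (mul_le_mul_of_nonneg_right hcard (by positivity)) (by positivity)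
          (by positivity)
        refine mul_le_mul_of_nonneg_left ?_ (by positivity)
        exact pow_le_pow_left₀ (by positivity) (by linarith) 4
    _ = 2 * ((h : ℝ) / j) ^ 2 * N ^ 6 * (128 * (A : ℝ) * (h : ℝ) ^ 2 * (j : ℝ) ^ 6) := by
        field_simp
        ring
    _ ≤ 2 * ((h : ℝ) / j) ^ 2 * N ^ 6 * N ^ 2 := mul_le_mul_of_nonneg_left hkey (by positivity)
    _ = 2 * N ^ 6 * ((h : ℝ) * N / j) ^ 2 := by
        field_simp
    _ ≤ 2 * P * ((h : ℝ) * N / j) ^ 2 := by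
        refine mul_le_mul_of_nonneg_right ?_ (by positivity)
        linarith

theorem t_GridQ (hM : S_MeanQ) : S_GridQ := by
  classical
  intro A hA
  have hA0 : (0 : ℝ) < A := by
    have : 0 < A := by omega
    exact_mod_cast this
  obtain ⟨C, hC, hcnt⟩ := count (1 / (A : ℝ)) (by positivity)
  obtain ⟨j1, hj1⟩ := exists_nat_ge (800 * C * (A : ℝ) ^ 3)
  refine ⟨max j1 1, ?_⟩
  intro g P J hg hJ
  have hJ1 : 1 ≤ J := le_of_max_le_right hJ
  -- the bad sets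
  let Bd : ℕ → ℕ × ℕ → Finset ℕ := fun j t => ((range (P + 1)).filter (fun m => Odd m)).filter (fun m =>
    t.2 * 2 ^ t.1 * j ^ 12 ≤ j ^ A ∧ (j ^ A) ^ 6 ≤ P ∧
      ((t.2 * 2 ^ t.1 : ℕ) : ℝ) * (j : ℝ) ^ A / j <
        |BB (fm g m) (j ^ A) (t.2 * 2 ^ t.1) - DD (fm g m) (j ^ A) (t.2 * 2 ^ t.1)|)
  have hBd : ∀ j : ℕ, J ≤ j → ∀ t ∈ Tp A j, ((Bd j t).card : ℝ) ≤ 4 * P / ((Tp A j).card * (j : ℝ) ^ 2) := by
    intro j hj t ht
    have hj0 : 1 ≤ j := hJ1.trans hj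
    have hjR : (1 : ℝ) ≤ j := by exact_mod_cast hj0
    have hjbig : 800 * C * (A : ℝ) ^ 3 ≤ j :=
      hj1.trans (by exact_mod_cast (le_of_max_le_left hJ).trans hj)
    have hcard0 : (0 : ℝ) < (Tp A j).card := by
      have : 0 < (Tp A j).card := card_pos.2 ⟨t, ht⟩
      exact_mod_cast this
    by_cases hcP : t.2 * 2 ^ t.1 * j ^ 12 ≤ j ^ A ∧ (j ^ A) ^ 6 ≤ P
    swap
    · have : Bd j t = ∅ := by
        apply filter_eq_empty_iff.mpr
        intro m _ h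
        exact hcP ⟨h.1, h.2.1⟩
      rw [this, card_empty, Nat.cast_zero]
      positivity
    obtain ⟨hc, hP⟩ := hcP
    have ht' : 1 ≤ t.2 := by
      unfold Tp at ht
      rw [mem_product, mem_Icc] at ht
      exact ht.2.1
    set h : ℕ := t.2 * 2 ^ t.1 with hh
    have hh1 : 1 ≤ h := Nat.mul_pos ht' (by positivity)
    have hhR : (0 : ℝ) < h := by exact_mod_cast hh1
    set l : ℝ := (h : ℝ) * (j : ℝ) ^ A / j with hl
    have hl0 : 0 < l := by positivity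
    have h1 := hM g (j ^ A) h P hg
    have h2 : ((Bd j t).card : ℝ) * l ^ 2 ≤
        ∑ m ∈ (range (P + 1)).filter (fun m => Odd m), (BB (fm g m) (j ^ A) h - DD (fm g m) (j ^ A) h) ^ 2 := by
      calc ((Bd j t).card : ℝ) * l ^ 2 = ∑ _m ∈ Bd j t, l ^ 2 := by rw [sum_const, nsmul_eq_mul]
        _ ≤ ∑ m ∈ Bd j t, (BB (fm g m) (j ^ A) h - DD (fm g m) (j ^ A) h) ^ 2 := by
            apply sum_le_sum
            intro m hm
            have h3 := (mem_filter.mp hm).2.2.2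
            rw [← sq_abs (BB (fm g m) (j ^ A) h - DD (fm g m) (j ^ A) h)]
            exact pow_le_pow_left₀ hl0.le h3.le 2
        _ ≤ _ := sum_le_sum_of_subset_of_nonneg (filter_subset _ _) (fun _ _ _ => sq_nonneg _)
    have hf := first hA hC hj0 hh1 hjbig hc (hcnt (j ^ A + h) h)
    have hs := second hA hC hj0 hh1 hjbig hc hP
    rw [le_div_iff₀ (by positivity)]
    have h4 : ((Bd j t).card : ℝ) * l ^ 2 ≤ P * (4 * (h : ℝ) ^ 2 * (((prs (j ^ A + h) h ×ˢ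
        prs (j ^ A + h) h).filter fun t => cr (red t.1) = cr (red t.2)).card : ℝ)) +
        4 * ((j : ℝ) ^ A * (h : ℝ) ^ 2) ^ 2 * ((j : ℝ) ^ A + h) ^ 4 := by
      refine h2.trans (h1.trans (le_of_eq ?_))
      push_cast
      rfl
    have hcj : (0 : ℝ) ≤ (Tp A j).card * (j : ℝ) ^ 2 := by positivity
    have h5 := mul_le_mul_of_nonneg_right h4 hcj
    have h6 := mul_le_mul_of_nonneg_left hf (Nat.cast_nonneg P : (0 : ℝ) ≤ P)
    have h7 : ((Bd j t).card : ℝ) * ((Tp A j).card * (j : ℝ) ^ 2) * l ^ 2 ≤ 4 * P * l ^ 2 := by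
      calc ((Bd j t).card : ℝ) * ((Tp A j).card * (j : ℝ) ^ 2) * l ^ 2
          = ((Bd j t).card : ℝ) * l ^ 2 * ((Tp A j).card * (j : ℝ) ^ 2) := by ring
        _ ≤ _ := h5
        _ ≤ P * (2 * l ^ 2) + 2 * P * l ^ 2 := by
            rw [add_mul]
            refine add_le_add (le_trans (le_of_eq (by ring)) h6) hs
        _ = 4 * P * l ^ 2 := by ring
    exact le_of_mul_le_mul_right h7 (by positivity)
  refine ⟨(Icc J P).biUnion (fun j => (Tp A j).biUnion (Bd j)), ?_, ?_⟩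
  · have h1 : ((((Icc J P).biUnion (fun j => (Tp A j).biUnion (Bd j))).card : ℕ) : ℝ) ≤
        ∑ j ∈ Icc J P, ∑ t ∈ Tp A j, ((Bd j t).card : ℝ) := by
      have h2 : ((Icc J P).biUnion (fun j => (Tp A j).biUnion (Bd j))).card ≤
          ∑ j ∈ Icc J P, ∑ t ∈ Tp A j, (Bd j t).card :=
        card_biUnion_le.trans (sum_le_sum (fun j _ => card_biUnion_le))
      exact_mod_cast h2
    have h3 : ∀ j ∈ Icc J P, ∑ t ∈ Tp A j, ((Bd j t).card : ℝ) ≤ 4 * P * ((j : ℝ) ^ 2)⁻¹ := by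
      intro j hj
      rw [mem_Icc] at hj
      have hj0 : 1 ≤ j := hJ1.trans hj.1
      have hjR : (1 : ℝ) ≤ j := by exact_mod_cast hj0
      have hne : (Tp A j).Nonempty := by
        refine ⟨(0, 1), ?_⟩
        unfold Tp
        rw [mem_product, mem_range, mem_Icc]
        refine ⟨by positivity, le_rfl, by omega⟩
      have hc0 : (0 : ℝ) < (Tp A j).card := by
        have : 0 < (Tp A j).card := card_pos.2 hne
        exact_mod_cast this
      calc ∑ t ∈ Tp A j, ((Bd j t).card : ℝ) ≤ ∑ _t ∈ Tp A j, 4 * P / ((Tp A j).card * (j : ℝ) ^ 2) :=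
            sum_le_sum (fun t ht => hBd j hj.1 t ht)
        _ = (Tp A j).card * (4 * P / ((Tp A j).card * (j : ℝ) ^ 2)) := by rw [sum_const, nsmul_eq_mul]
        _ = 4 * P * ((j : ℝ) ^ 2)⁻¹ := by
            field_simp
    have h4 : ∑ j ∈ Icc J P, ((j : ℝ) ^ 2)⁻¹ ≤ 2 / J := by
      have h5 : Icc J P = Ioo (J - 1) (P + 1) := by
        ext x
        rw [mem_Icc, mem_Ioo]
        omega
      rw [h5]
      have h6 := sum_Ioo_inv_sq_le (α := ℝ) (J - 1) (P + 1)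
      have h7 : (((J - 1 : ℕ) : ℝ) + 1) = J := by
        have : (J - 1) + 1 = J := by omega
        exact_mod_cast this
      rw [h7] at h6
      exact h6
    calc _ ≤ ∑ j ∈ Icc J P, ∑ t ∈ Tp A j, ((Bd j t).card : ℝ) := h1
      _ ≤ ∑ j ∈ Icc J P, 4 * P * ((j : ℝ) ^ 2)⁻¹ := sum_le_sum h3
      _ = 4 * P * ∑ j ∈ Icc J P, ((j : ℝ) ^ 2)⁻¹ := by rw [mul_sum]
      _ ≤ 4 * P * (2 / J) := mul_le_mul_of_nonneg_left h4 (by positivity)
      _ = 8 * P / J := by ring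
  · intro m hmP hmo hmE j hj hjP i u hu1 hu2 hc
    by_contra hcon
    rw [not_le] at hcon
    apply hmE
    have hj0 : 1 ≤ j := hJ1.trans hj
    have hjP' : j ≤ P := by
      calc j = j ^ 1 := (pow_one _).symm
        _ ≤ j ^ (A * 6) := Nat.pow_le_pow_right hj0 (by omega)
        _ = (j ^ A) ^ 6 := pow_mul _ _ _
        _ ≤ P := hjP
    have hi : i < A * j + 1 := by
      have h1 : 2 ^ i ≤ (2 ^ j) ^ A := by
        calc 2 ^ i = 1 * 2 ^ i * 1 := by ring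
          _ ≤ u * 2 ^ i * j ^ 12 :=
              Nat.mul_le_mul (Nat.mul_le_mul_right _ hu1) (Nat.one_le_pow _ _ hj0)
          _ ≤ j ^ A := hc
          _ ≤ (2 ^ j) ^ A := Nat.pow_le_pow_left (Nat.lt_two_pow_self).le _
      rw [← pow_mul] at h1
      have := (Nat.pow_le_pow_iff_right (by norm_num : 1 < 2)).1 h1
      rw [mul_comm j A] at this
      omega
    rw [mem_biUnion]
    refine ⟨j, mem_Icc.mpr ⟨hj, hjP'⟩, ?_⟩
    rw [mem_biUnion]
    refine ⟨(i, u), ?_, ?_⟩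
    · unfold Tp
      rw [mem_product, mem_range, mem_Icc]
      exact ⟨hi, hu1, hu2⟩
    · apply mem_filter.mpr
      refine ⟨mem_filter.mpr ⟨mem_range.mpr (by omega), hmo⟩, hc, hjP, hcon⟩

end Pool.Agent.Q208.QT
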